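import Mathlib
import Pool.Agent.Q287.WT.Defs
import Pool.Agent.Q287.WT.Dual
import Pool.Agent.Q287.WT.Dual2

open MeasureTheory

namespace Pool.Agent.Results.MP_200d02_pr.MinusImpliesBoth

open Pool.Agent.Q287.WT

/-- Question Q1 has a positive answer in every dimension, in terms of the dual
(Gozlan–Roberto–Samson–Tetali) forms of the two weak transport inequalities quoted in the problem:
for a probability measure `μ` on `ℝ^n` with finite first moment, `T⁻(θ(a·))` for some `a > 0`
implies both `T⁻(θ(a'·))` and `T⁺(θ(a'·))`, that is `T(θ(a'·))`, for some `a' > 0`, where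
`θ(t) = t²`. -/
theorem result (n : ℕ) (μ : Measure (E n)) [IsProbabilityMeasure μ]
    (hμ : Integrable (fun x : E n => ‖x‖) μ) (a : ℝ) (ha : 0 < a) (h : DualMinus a μ) :
    ∃ a' : ℝ, 0 < a' ∧ DualMinus a' μ ∧ DualPlus a' μ := by
  obtain ⟨b, hb, hp⟩ := dualPlus_of_dualMinus hμ ha h
  have mono : ∀ {c d : ℝ}, 0 ≤ c → c ≤ d → ∀ {f : E n → ℝ} {m : ℝ}, (∀ y, m ≤ f y) → ∀ x,
      Qc c f x ≤ Qc d f x := by
    intro c d hc hcd f m hm x
    refine le_Qc fun y => (Qc_le hm x y).trans ?_
    have h1 : c * ‖x - y‖ ≤ d * ‖x - y‖ := mul_le_mul_of_nonneg_right hcd (norm_nonneg _)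
    have h2 := pow_le_pow_left₀ (mul_nonneg hc (norm_nonneg (x - y))) h1 2
    linarith
  have hmin : 0 < min a b := lt_min ha hb
  refine ⟨min a b, hmin, ?_, ?_⟩
  · intro f hf hfb hfi
    obtain ⟨m, hm⟩ := hfb
    have hm' : ∀ y, m ≤ f y := fun y => hm ⟨y, rfl⟩
    refine (lintegral_mono fun x => ?_).trans (h f hf ⟨m, hm⟩ hfi)
    exact ENNReal.ofReal_le_ofReal (Real.exp_le_exp.2 (mono hmin.le (min_le_left a b) hm' x))
  · intro f hf hfb
    obtain ⟨m, hm⟩ := hfb
    have hm' : ∀ y, m ≤ f y := fun y => hm ⟨y, rfl⟩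
    obtain ⟨h1, h2⟩ := hp f hf ⟨m, hm⟩
    have hle : ∀ x, Qc (min a b) f x ≤ Qc b f x := mono hmin.le (min_le_right a b) hm'
    have hint : Integrable (Qc (min a b) f) μ := by
      have hcont := convex_continuous (Qc_convex hmin hf hm')
      refine ((h1.abs).add (integrable_const |m|)).mono' hcont.aestronglyMeasurable
        (Filter.Eventually.of_forall fun x => ?_)
      rw [Real.norm_eq_abs, abs_le]
      have h3 := hle x
      have h4 : m ≤ Qc (min a b) f x := le_Qc_of_le hm' x
      simp only [Pi.add_apply]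
      constructor
      · have := neg_abs_le m
        have := abs_nonneg (Qc b f x)
        linarith
      · have := le_abs_self (Qc b f x)
        have := abs_nonneg m
        linarith
    refine ⟨hint, le_trans ?_ h2⟩
    refine mul_le_mul_of_nonneg_right ?_ (integral_nonneg fun x => (Real.exp_pos _).le)
    exact Real.exp_le_exp.2 (integral_mono hint h1 hle)

end Pool.Agent.Results.MP_200d02_pr.MinusImpliesBoth
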